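import Pool.Agent.H4.TA.Targets

/-!
# The region is given by its lower boundary (MP_183c3b_co, row DES)
-/

set_option autoImplicit false

open Pool.Agent.H43.TC

namespace Pool.Agent.H54.TA

theorem pf_DES (hCLS : T_CLS) (hCVX : T_CVX) (hSYM : T_SYM) (hBOX : T_BOX) (hONE : T_ONE)
    (hDIV : T_DIV) : Pool.Agent.H4.TA.T_DES := by
  intro k t hk ht
  have h00 : ((0 : ℝ), (0 : ℝ)) ∈ region k t := by
    have h := hDIV k t 1 hk ht (one_dvd _)
    simpa [zero_pow (show t ≠ 0 by omega)] using h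
  have h11 := hONE k t hk
  have hcv := hCVX k t hk
  have hcl := hCLS k t hk
  have hdiag : ∀ x : ℝ, 0 ≤ x → x ≤ 1 → (x, x) ∈ region k t := by
    intro x h0 h1
    have h := hcv h00 h11 (sub_nonneg.2 h1) h0 (by ring)
    simpa using h
  have hYc : ∀ x : ℝ, IsClosed {y : ℝ | (x, y) ∈ region k t} := fun x =>
    hcl.preimage (show Continuous fun y : ℝ => (x, y) by fun_prop)
  have hYb : ∀ x : ℝ, BddBelow {y : ℝ | (x, y) ∈ region k t} := fun x =>
    ⟨0, fun y hy => (hBOX k t x y hk hy).2.2.1⟩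
  have hYv : ∀ x : ℝ, Convex ℝ {y : ℝ | (x, y) ∈ region k t} := by
    intro x y hy z hz a b ha hb hab
    have h := hcv hy hz ha hb hab
    have he : a • (x, y) + b • (x, z) = (x, a • y + b • z) := by
      ext
      · simp only [Prod.smul_mk, Prod.mk_add_mk, smul_eq_mul]
        rw [← add_mul, hab, one_mul]
      · simp
    rw [he] at h
    exact h
  have hmem : ∀ x : ℝ, 0 ≤ x → x ≤ 1 →
      (x, sInf {y : ℝ | (x, y) ∈ region k t}) ∈ region k t := fun x h0 h1 =>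
    (hYc x).csInf_mem ⟨x, hdiag x h0 h1⟩ (hYb x)
  have hle : ∀ x y : ℝ, (x, y) ∈ region k t → sInf {y : ℝ | (x, y) ∈ region k t} ≤ y :=
    fun x y hy => csInf_le (hYb x) hy
  refine ⟨fun x => sInf {y : ℝ | (x, y) ∈ region k t}, ?_, fun x h0 h1 =>
    ⟨hmem x h0 h1, fun y hy => hle x y hy⟩⟩
  ext ⟨x, y⟩
  simp only [Set.mem_ofPred_eq]
  constructor
  · intro h
    obtain ⟨a, b, c, d⟩ := hBOX k t x y hk h
    exact ⟨⟨a, b⟩, ⟨c, d⟩, hle x y h, hle y x (hSYM k t x y h)⟩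
  · rintro ⟨⟨hx0, hx1⟩, ⟨hy0, hy1⟩, h1, h2⟩
    rcases le_total y x with h | h
    · exact (hYv x).ordConnected.out (hmem x hx0 hx1) (hdiag x hx0 hx1) ⟨h1, h⟩
    · exact hSYM k t y x
        ((hYv y).ordConnected.out (hmem y hy0 hy1) (hdiag y hy0 hy1) ⟨h2, h⟩)

end Pool.Agent.H54.TA
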