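import Pool.Agent.H4.TA.Targets

/-!
# The boundary from above (MP_183c3b_co, row FUP)
-/

set_option autoImplicit false

open Finset Pool.Agent.H43.TC Pool.Agent.H4.TA

namespace Pool.Agent.H54.TA

/-- a positive rational between two reals below 1, as a quotient of naturals -/
lemma exists_quot {p q : ℝ} (hp : 0 < p) (hpq : p < q) (hq : q ≤ 1) :
    ∃ a b : ℕ, 0 < a ∧ a ≤ b ∧ p ≤ (a / b : ℝ) ∧ (a / b : ℝ) ≤ q := by
  obtain ⟨r, hr1, hr2⟩ := exists_rat_btwn hpq
  have hr0 : (0 : ℚ) < r := by exact_mod_cast hp.trans hr1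
  have hnum : 0 < r.num := Rat.num_pos.2 hr0
  have hcast : ((r.num.toNat : ℕ) : ℝ) / (r.den : ℝ) = (r : ℝ) := by
    have h1 : ((r.num.toNat : ℕ) : ℤ) = r.num := Int.toNat_of_nonneg hnum.le
    have h2 : ((r.num.toNat : ℕ) : ℝ) = (r.num : ℝ) := by exact_mod_cast h1
    rw [h2]
    exact (Rat.cast_def r).symm
  have hden : (0 : ℝ) < r.den := by exact_mod_cast r.den_pos
  refine ⟨r.num.toNat, r.den, by omega, ?_, ?_, ?_⟩
  · have h3 : ((r.num.toNat : ℕ) : ℝ) / (r.den : ℝ) ≤ 1 := by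
      rw [hcast]
      exact hr2.le.trans hq
    rw [div_le_one hden] at h3
    exact_mod_cast h3
  · rw [hcast]
    exact hr1.le
  · rw [hcast]
    exact hr2.le

theorem pf_FUP (hCVX : T_CVX) (hONE : T_ONE) (hDIV : T_DIV) (hBOX : T_BOX) (hUPP : T_UPP)
    (hCHB : T_CHB) (hRGR : T_RGR) (hLIU : T_LIU) : T_FUP := by
  intro k ε hk hε
  have hk0 : 0 < k := by omega
  set e : ℝ := min ε 1 with he
  have he0 : 0 < e := lt_min hε one_pos
  have he1 : e ≤ 1 := min_le_right _ _
  have heε : e ≤ ε := min_le_left _ _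
  set V : ℝ := Real.log (2 / e) + 1 with hV
  have h2e : 1 ≤ 2 / e := by
    rw [le_div_iff₀ he0]
    linarith
  have hV0 : 0 < V := by
    have := Real.log_nonneg h2e
    linarith
  have hVe : Real.exp (-V) ≤ e / 2 := by
    have h1 : Real.exp (-V) ≤ Real.exp (-Real.log (2 / e)) := Real.exp_le_exp.2 (by linarith)
    have h2 : Real.exp (-Real.log (2 / e)) = e / 2 := by
      rw [Real.exp_neg, Real.exp_log (by positivity), inv_div]
    rw [h2] at h1
    exact h1
  obtain ⟨δ, E₀, hδ0, hδ1, hVE, hE1, hliu⟩ := hLIU (e / 4) V (by linarith) hV0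
  obtain ⟨t₁, ht₁⟩ := hCHB k δ (e / 4) hk hδ0 (by linarith)
  obtain ⟨t₂, ht₂⟩ := (hRGR k hk).2.1 E₀
  refine ⟨max (max t₁ t₂) 1, fun t ht => ?_⟩
  have htt1 : t₁ ≤ t := (le_max_left _ _).trans ((le_max_left _ _).trans ht)
  have htt2 : t₂ ≤ t := (le_max_right _ _).trans ((le_max_left _ _).trans ht)
  have ht1 : 1 ≤ t := (le_max_right _ _).trans ht
  set E : ℝ := rng k t with hE
  have hE0 : E₀ ≤ E := ht₂ t htt2
  have hEpos : 0 < E := by linarith
  have hch := ht₁ t htt1
  have h00 : ((0 : ℝ), (0 : ℝ)) ∈ region k t := by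
    have h := hDIV k t 1 hk0 ht1 (one_dvd _)
    simpa [zero_pow (show t ≠ 0 by omega)] using h
  have hcv := hCVX k t hk0
  -- scaling towards the origin
  have hscale : ∀ x x' y' : ℝ, 0 ≤ x → x ≤ x' → (x', y') ∈ region k t →
      ∃ y : ℝ, (x, y) ∈ region k t ∧ y ≤ y' := by
    intro x x' y' hx hxx hp
    obtain ⟨hb1, hb2, hb3, hb4⟩ := hBOX k t x' y' hk0 hp
    rcases hb1.eq_or_lt with h | h
    · have hx0 : x = 0 := le_antisymm (by rw [← h] at hxx; exact hxx) hx
      exact ⟨0, by rw [hx0]; exact h00, hb3⟩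
    · have hq0 : 0 ≤ x / x' := by positivity
      have hq1 : x / x' ≤ 1 := (div_le_one h).2 hxx
      refine ⟨x / x' * y', ?_, ?_⟩
      · have h := hcv h00 hp (sub_nonneg.2 hq1) hq0 (by ring)
        have he2 : (1 - x / x') • ((0 : ℝ), (0 : ℝ)) + (x / x') • (x', y') =
            (x, x / x' * y') := by
          ext
          · simp only [Prod.smul_mk, Prod.mk_add_mk, smul_eq_mul, mul_zero, zero_add]
            field_simp
          · simp
        rw [he2] at h
        exact h
      · nlinarith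
  have hA : ∀ x : ℝ, 0 ≤ x → x ≤ 1 → E * (1 - x) ≤ V →
      ∃ y : ℝ, (x, y) ∈ region k t ∧ y ≤ Real.exp (-(E * (1 - x))) + e / 2 := by
    intro x hx0 hx1 hxV
    rcases hx1.eq_or_lt with h | h
    · refine ⟨1, by rw [h]; exact hONE k t hk0, ?_⟩
      rw [h]
      simp only [sub_self, mul_zero, neg_zero, Real.exp_zero]
      linarith
    · have hu : 0 < 1 - x := by linarith
      obtain ⟨a, b, ha, hab, hq1, hq2⟩ := exists_quot (p := (1 - δ) * (1 - x)) (q := 1 - x)
        (mul_pos (by linarith) hu) (by nlinarith) (by linarith)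
      obtain ⟨x', y', hp, hx', hy'⟩ := hUPP k t a b hk0 ht1 ha hab
      obtain ⟨y, hy, hyy⟩ := hscale x x' y' hx0 (by linarith) hp
      refine ⟨y, hy, hyy.trans (hy'.trans ?_)⟩
      have hq0 : (0 : ℝ) ≤ (a / b : ℝ) := by positivity
      have hpt : ∀ w : Wd k t, (1 + (a / b : ℝ))⁻¹ ^ (R w - 1) ≤
          ind ((R w : ℝ) ≤ (1 - δ) * rng k t) + (Real.exp (-(E * (1 - x))) + e / 4) := by
        intro w
        by_cases hw : (R w : ℝ) ≤ (1 - δ) * rng k t
        · rw [ind_true hw]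
          have h1 : (1 + (a / b : ℝ))⁻¹ ^ (R w - 1) ≤ 1 :=
            pow_le_one₀ (by positivity) (inv_le_one_of_one_le₀ (by linarith))
          have h2 := (Real.exp_pos (-(E * (1 - x)))).le
          linarith
        · have h1 := ind_nonneg ((R w : ℝ) ≤ (1 - δ) * rng k t)
          have hR : 1 ≤ R w := by
            unfold R
            exact Finset.card_pos.2 ⟨pos w 0, mem_image_of_mem _ (by simp)⟩
          have h2 : (1 - δ) * E ≤ ((R w - 1 : ℕ) : ℝ) + 1 := by
            have h3 : ((R w - 1 : ℕ) : ℝ) + 1 = (R w : ℝ) := by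
              rw [Nat.cast_sub hR]
              simp
            rw [h3]
            exact (not_le.1 hw).le
          have h4 := hliu E (1 - x) (a / b) (R w - 1) hE0 hu.le hxV hq1 hq2 h2
          linarith
      have h5 := av_mono hpt
      rw [av_add, av_const hk0] at h5
      linarith
  intro x hx0 hx1
  rcases le_or_gt (E * (1 - x)) V with h | h
  · obtain ⟨y, hy, hyy⟩ := hA x hx0 hx1 h
    exact ⟨y, hy, by linarith⟩
  · have hVE2 : V / E ≤ 1 := (div_le_one hEpos).2 (hVE.trans hE0)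
    have hVE0 : 0 ≤ V / E := by positivity
    have hEE : E * (1 - (1 - V / E)) = V := by
      field_simp
      ring
    obtain ⟨y, hy, hyy⟩ := hA (1 - V / E) (by linarith) (by linarith) hEE.le
    rw [hEE] at hyy
    have hxx : x ≤ 1 - V / E := by
      have h1 : V / E ≤ 1 - x := by
        rw [div_le_iff₀ hEpos]
        linarith
      linarith
    obtain ⟨z, hz, hzz⟩ := hscale x (1 - V / E) y hx0 hxx hy
    refine ⟨z, hz, ?_⟩
    have h2 := (Real.exp_pos (-(E * (1 - x)))).le
    linarith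

end Pool.Agent.H54.TA
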